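import Mathlib

/-!
# MP_2c8f22_co, Q1: disproof

For `(r₁, r₂; n₁, n₂) = (5, 117; 3, 4)` (so `n₁ < r₁ < 2 n₁`) the irreducible polynomials
`f = x¹² + x¹¹ + x⁵ + x + 1` and `g = x¹² + x¹⁰ + x⁶ + x⁵ + x³ + x + 1` of exponent `585 = 5·117`
each fold to a `(5, 117; 3, 4)`-PRAC, but their product does not fold to a `(5, 117; 3, 8)`-PRAC.
-/

namespace Pool.Agent.Q35.Prac

open Polynomial Finset

/-! ### The objects of the problem -/

/-- The sequence `s` is generated by `f`: it satisfies the linear recurrence with characteristic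
polynomial `f`. -/
def Gen (f : (ZMod 2)[X]) (s : ℕ → ZMod 2) : Prop :=
  ∀ n, ∑ i ∈ range (f.natDegree + 1), f.coeff i * s (n + i) = 0

/-- Doubly periodic binary `r₁ × r₂` arrays. -/
abbrev Arr (r₁ r₂ : ℕ) : Type := ZMod r₁ → ZMod r₂ → ZMod 2

/-- `A` is the folding of `s`: `A[i mod r₁, i mod r₂] = s_i` for all `i`. (So the period of `s`
divides `r₁ r₂`.) -/
def IsFolding {r₁ r₂ : ℕ} (s : ℕ → ZMod 2) (A : Arr r₁ r₂) : Prop :=
  ∀ i : ℕ, A (i : ZMod r₁) (i : ZMod r₂) = s i

/-- Foldings of the nonzero sequences generated by `f`. -/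
def Foldings (f : (ZMod 2)[X]) (r₁ r₂ : ℕ) : Set (Arr r₁ r₂) :=
  {A | ∃ s, Gen f s ∧ s ≠ 0 ∧ IsFolding s A}

/-- The cyclic shift of `A` by `(i, j)`. -/
def shift {r₁ r₂ : ℕ} (A : Arr r₁ r₂) (i : ZMod r₁) (j : ZMod r₂) : Arr r₁ r₂ :=
  fun a b => A (i + a) (j + b)

/-- The `n₁ × n₂` window of `A` at `(i, j)`. -/
def window {r₁ r₂ : ℕ} (n₁ n₂ : ℕ) (A : Arr r₁ r₂) (i : ZMod r₁) (j : ZMod r₂) :
    Fin n₁ → Fin n₂ → ZMod 2 :=
  fun a b => A (i + (a : ℕ)) (j + (b : ℕ))

/-- `(r₁, r₂; n₁, n₂)`-PRAC. -/
structure IsPRAC (r₁ r₂ n₁ n₂ : ℕ) (C : Set (Arr r₁ r₂)) : Prop where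
  dvd : r₁ * r₂ ∣ 2 ^ (n₁ * n₂) - 1
  window : ∀ M : Fin n₁ → Fin n₂ → ZMod 2, M ≠ 0 →
    ∃! x : Arr r₁ r₂ × ZMod r₁ × ZMod r₂, x.1 ∈ C ∧ window n₁ n₂ x.1 x.2.1 x.2.2 = M
  add : ∀ A ∈ C, ∀ B : Arr r₁ r₂,
    ((B ∈ C ∧ B ≠ A) ∨ ∃ i j, (i, j) ≠ (0, 0) ∧ B = shift A i j) →
      ∃ D ∈ C, ∃ i j, A + B = shift D i j

/-- `C` contains exactly one array of `S` from each class of arrays of `S` under cyclic shifts. -/
def IsReps {r₁ r₂ : ℕ} (S C : Set (Arr r₁ r₂)) : Prop :=
  C ⊆ S ∧ ∀ A ∈ S, ∃! D, D ∈ C ∧ ∃ i j, A = shift D i j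

/-- Folding the nonzero sequences generated by `f` (one for each class of sequences under shifts)
gives an `(r₁, r₂; n₁, n₂)`-PRAC. -/
def FoldsToPRAC (f : (ZMod 2)[X]) (r₁ r₂ n₁ n₂ : ℕ) : Prop :=
  ∃ C, IsReps (Foldings f r₁ r₂) C ∧ IsPRAC r₁ r₂ n₁ n₂ C

/-- `e` is the exponent of `f`: the least `e ≥ 1` with `f ∣ x^e - 1`. -/
def IsExponent (f : (ZMod 2)[X]) (e : ℕ) : Prop := IsLeast {e | 1 ≤ e ∧ f ∣ X ^ e - 1} e

/-! ### General facts -/

section general

variable {r₁ r₂ : ℕ}

lemma shift_shift (A : Arr r₁ r₂) (i i' : ZMod r₁) (j j' : ZMod r₂) :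
    shift (shift A i j) i' j' = shift A (i + i') (j + j') := by
  funext a b; simp [shift, add_assoc]

lemma shift_zero (A : Arr r₁ r₂) : shift A 0 0 = A := by funext a b; simp [shift]

lemma window_eq (n₁ n₂ : ℕ) (A : Arr r₁ r₂) (i : ZMod r₁) (j : ZMod r₂) :
    window n₁ n₂ A i j = window n₁ n₂ (shift A i j) 0 0 := by
  funext a b; simp [window, shift]

lemma window_add (n₁ n₂ : ℕ) (A B : Arr r₁ r₂) (i : ZMod r₁) (j : ZMod r₂) :
    window n₁ n₂ (A + B) i j = window n₁ n₂ A i j + window n₁ n₂ B i j := rfl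

/-- Each shift-closed set has a set of representatives. -/
lemma exists_reps (S : Set (Arr r₁ r₂)) (hS : ∀ A ∈ S, ∀ i j, shift A i j ∈ S) :
    ∃ C, IsReps S C := by
  classical
  let st : Setoid (Arr r₁ r₂) :=
    { r := fun A B => ∃ i j, B = shift A i j
      iseqv :=
        { refl := fun A => ⟨0, 0, (shift_zero A).symm⟩
          symm := by
            rintro A B ⟨i, j, rfl⟩
            exact ⟨-i, -j, by rw [shift_shift, add_neg_cancel, add_neg_cancel, shift_zero]⟩
          trans := by
            rintro A B D ⟨i, j, rfl⟩ ⟨i', j', rfl⟩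
            exact ⟨i + i', j + j', shift_shift _ _ _ _ _⟩ } }
  let out : Arr r₁ r₂ → Arr r₁ r₂ := fun A => (Quotient.mk st A).out
  have hout : ∀ A, ∃ i j, A = shift (out A) i j := by
    intro A
    have h := Quotient.exact (Quotient.out_eq (Quotient.mk st A))
    exact h
  refine ⟨out '' S, ?_, ?_⟩
  · rintro _ ⟨A, hA, rfl⟩
    obtain ⟨i, j, h⟩ := Quotient.exact (Quotient.out_eq (Quotient.mk st A)).symm
    change out A = shift A i j at h
    rw [h]; exact hS A hA i j
  · intro A hA
    refine ⟨out A, ⟨⟨A, hA, rfl⟩, hout A⟩, ?_⟩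
    rintro _ ⟨⟨B, hB, rfl⟩, h⟩
    have h1 : Quotient.mk st (out B) = Quotient.mk st A := Quotient.sound h
    have h2 : Quotient.mk st (out B) = Quotient.mk st B := Quotient.out_eq _
    change (Quotient.mk st B).out = (Quotient.mk st A).out
    rw [← h2, h1]

lemma neg_eq' (A : Arr r₁ r₂) : A + A = 0 := by
  funext a b
  exact CharTwo.add_self_eq_zero _

lemma eq_of_add (A B : Arr r₁ r₂) (h : A + B = 0) : A = B := by
  have : A + B + B = B := by rw [h, zero_add]
  rwa [add_assoc, neg_eq', add_zero] at this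

/-- Criterion for PRAC. -/
theorem prac_of (n₁ n₂ : ℕ) (V : Set (Arr r₁ r₂)) (hdvd : r₁ * r₂ ∣ 2 ^ (n₁ * n₂) - 1)
    (hadd : ∀ A ∈ V, ∀ B ∈ V, A + B ∈ V) (hshift : ∀ A ∈ V, ∀ i j, shift A i j ∈ V)
    (hinj : ∀ A ∈ V, window n₁ n₂ A 0 0 = 0 → A = 0)
    (hsurj : ∀ M, ∃ A ∈ V, window n₁ n₂ A 0 0 = M)
    (hper : ∀ A ∈ V, A ≠ 0 → ∀ i j, shift A i j = A → (i, j) = (0, 0))
    (C : Set (Arr r₁ r₂)) (hC : IsReps {A | A ∈ V ∧ A ≠ 0} C) : IsPRAC r₁ r₂ n₁ n₂ C := by
  have hper' : ∀ A ∈ V, A ≠ 0 → ∀ i j i' j', shift A i j = shift A i' j' → (i, j) = (i', j') := by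
    intro A hA h0 i j i' j' h
    have h1 := congrArg (fun B => shift B (-i') (-j')) h
    simp only [shift_shift, add_neg_cancel, shift_zero] at h1
    have h2 := hper A hA h0 _ _ h1
    rw [Prod.mk.injEq] at h2 ⊢
    exact ⟨by linear_combination h2.1, by linear_combination h2.2⟩
  refine ⟨hdvd, ?_, ?_⟩
  · intro M hM
    obtain ⟨A, hA, hAM⟩ := hsurj M
    have hA0 : A ≠ 0 := by
      rintro rfl; exact hM hAM.symm
    obtain ⟨D, ⟨hDC, i, j, hD⟩, huniq⟩ := hC.2 A ⟨hA, hA0⟩
    have hDV := hC.1 hDC
    refine ⟨(D, i, j), ⟨hDC, ?_⟩, ?_⟩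
    · change window n₁ n₂ D i j = M
      rw [window_eq, ← hD, hAM]
    · rintro ⟨D', i', j'⟩ ⟨hD'C, hM'⟩
      change D' ∈ C at hD'C
      change window n₁ n₂ D' i' j' = M at hM'
      have hD'V := hC.1 hD'C
      have e : A = shift D' i' j' := by
        apply eq_of_add
        apply hinj _ (hadd _ hA _ (hshift _ hD'V.1 _ _))
        rw [window_add, hAM, ← window_eq, hM']
        funext a b
        exact CharTwo.add_self_eq_zero _
      have e2 : D' = D := huniq D' ⟨hD'C, i', j', e⟩
      subst e2
      have := hper' D' hD'V.1 hD'V.2 i' j' i j (by rw [← e, ← hD])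
      rw [Prod.mk.injEq] at this
      rw [this.1, this.2]
  · rintro A hA B hB
    have hAV := hC.1 hA
    have key : B ∈ V ∧ A + B ≠ 0 := by
      rcases hB with ⟨hB, hne⟩ | ⟨i, j, hij, rfl⟩
      · exact ⟨(hC.1 hB).1, fun h => hne (eq_of_add _ _ h).symm⟩
      · exact ⟨hshift _ hAV.1 _ _, fun h => hij (hper A hAV.1 hAV.2 i j (eq_of_add _ _ h).symm)⟩
    obtain ⟨D, ⟨hDC, i, j, hD⟩, -⟩ := hC.2 (A + B) ⟨hadd _ hAV.1 _ key.1, key.2⟩
    exact ⟨D, hDC, i, j, hD⟩

/-- Criterion for not being a PRAC. -/
theorem not_prac_of (n₁ n₂ : ℕ) (V : Set (Arr r₁ r₂))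
    (hadd : ∀ A ∈ V, ∀ B ∈ V, A + B ∈ V) (hshift : ∀ A ∈ V, ∀ i j, shift A i j ∈ V)
    (A₀ : Arr r₁ r₂) (h₀ : A₀ ∈ V) (hne : A₀ ≠ 0) (hw : window n₁ n₂ A₀ 0 0 = 0)
    (M : Fin n₁ → Fin n₂ → ZMod 2) (hM : M ≠ 0)
    (C : Set (Arr r₁ r₂)) (hC : IsReps {A | A ∈ V ∧ A ≠ 0} C) : ¬ IsPRAC r₁ r₂ n₁ n₂ C := by
  intro hP
  obtain ⟨⟨D, i, j⟩, ⟨hDC, hDM⟩, huniq⟩ := hP.window M hM
  change D ∈ C at hDC
  change window n₁ n₂ D i j = M at hDM
  have hDV := hC.1 hDC
  have h1 : window n₁ n₂ (shift D i j + A₀) 0 0 = M := by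
    rw [window_add, ← window_eq, hDM, hw, add_zero]
  have h2 : shift D i j + A₀ ≠ 0 := by
    intro h
    rw [h] at h1
    exact hM h1.symm
  obtain ⟨D', ⟨hD'C, i', j', hD'⟩, -⟩ :=
    hC.2 (shift D i j + A₀) ⟨hadd _ (hshift _ hDV.1 _ _) _ h₀, h2⟩
  have h3 := huniq (D', i', j') ⟨hD'C, by
    change window n₁ n₂ D' i' j' = M
    rw [window_eq, ← hD', h1]⟩
  rw [Prod.mk.injEq, Prod.mk.injEq] at h3
  obtain ⟨rfl, rfl, rfl⟩ := h3
  rw [add_eq_left] at hD'
  exact hne hD'

end general

/-! ### Sequences and the shift operator -/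

/-- The shift operator on sequences. -/
def T : (ℕ → ZMod 2) →ₗ[ZMod 2] (ℕ → ZMod 2) where
  toFun s n := s (n + 1)
  map_add' _ _ := rfl
  map_smul' _ _ := rfl

lemma T_pow (k : ℕ) : ∀ (s : ℕ → ZMod 2) (n : ℕ), (T ^ k) s n = s (n + k) := by
  induction k with
  | zero => intro s n; rfl
  | succ k ih =>
    intro s n
    rw [pow_succ, Module.End.mul_apply, ih]
    change s (n + k + 1) = _
    rfl

/-- Action of polynomials on sequences. -/
noncomputable def act (P : (ZMod 2)[X]) (s : ℕ → ZMod 2) : ℕ → ZMod 2 := aeval T P s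

lemma act_apply (P : (ZMod 2)[X]) (s : ℕ → ZMod 2) (n : ℕ) :
    act P s n = ∑ i ∈ range (P.natDegree + 1), P.coeff i * s (n + i) := by
  unfold act
  rw [aeval_eq_sum_range, LinearMap.sum_apply, Finset.sum_apply]
  apply sum_congr rfl
  intro i _
  rw [LinearMap.smul_apply, Pi.smul_apply, T_pow, smul_eq_mul]

lemma gen_iff (f : (ZMod 2)[X]) (s : ℕ → ZMod 2) : Gen f s ↔ act f s = 0 := by
  constructor
  · intro h; funext n; rw [act_apply]; exact h n
  · intro h n; rw [← act_apply, h]; rfl

lemma act_mul (P Q : (ZMod 2)[X]) (s : ℕ → ZMod 2) : act (P * Q) s = act P (act Q s) := by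
  unfold act; rw [map_mul, Module.End.mul_apply]

lemma act_add (P Q : (ZMod 2)[X]) (s : ℕ → ZMod 2) : act (P + Q) s = act P s + act Q s := by
  unfold act; rw [map_add, LinearMap.add_apply]

lemma act_sub (P Q : (ZMod 2)[X]) (s : ℕ → ZMod 2) : act (P - Q) s = act P s - act Q s := by
  unfold act; rw [map_sub, LinearMap.sub_apply]

lemma act_one (s : ℕ → ZMod 2) : act 1 s = s := by unfold act; rw [map_one]; rfl

lemma act_X_pow (k : ℕ) (s : ℕ → ZMod 2) (n : ℕ) : act (X ^ k) s n = s (n + k) := by
  unfold act; rw [map_pow, aeval_X, T_pow]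

lemma act_zero (P : (ZMod 2)[X]) : act P 0 = 0 := by unfold act; rw [map_zero]

lemma act_add' (P : (ZMod 2)[X]) (s t : ℕ → ZMod 2) : act P (s + t) = act P s + act P t := by
  unfold act; rw [map_add]

lemma act_shift (P : (ZMod 2)[X]) (s : ℕ → ZMod 2) (k : ℕ) :
    act P (fun n => s (n + k)) = fun n => act P s (n + k) := by
  have h1 : (fun n => s (n + k)) = act (X ^ k) s := by funext n; rw [act_X_pow]
  rw [h1, ← act_mul, mul_comm, act_mul]
  funext n
  rw [act_X_pow]

lemma act_of_dvd {P Q : (ZMod 2)[X]} (h : P ∣ Q) {s : ℕ → ZMod 2} (hs : act P s = 0) :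
    act Q s = 0 := by
  obtain ⟨R, rfl⟩ := h
  rw [mul_comm, act_mul, hs, act_zero]

lemma periodic_of_dvd {f : (ZMod 2)[X]} {e : ℕ} (h : f ∣ X ^ e - 1) {s : ℕ → ZMod 2}
    (hs : act f s = 0) (n : ℕ) : s (n + e) = s n := by
  have := congrFun (act_of_dvd h hs) n
  rw [act_sub, act_one, Pi.sub_apply, act_X_pow] at this
  exact sub_eq_zero.mp this

lemma periodic_mul {s : ℕ → ZMod 2} {e : ℕ} (h : ∀ n, s (n + e) = s n) :
    ∀ q n, s (n + e * q) = s n := by
  intro q
  induction q with
  | zero => intro n; simp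
  | succ q ih =>
    intro n
    rw [mul_add, mul_one, ← add_assoc, h, ih]

lemma periodic_mod {s : ℕ → ZMod 2} {e : ℕ} (h : ∀ n, s (n + e) = s n) {a b : ℕ}
    (hab : a % e = b % e) : s a = s b := by
  have key : ∀ n, s n = s (n % e) := by
    intro n
    conv_lhs => rw [← Nat.mod_add_div n e]
    exact periodic_mul h _ _
  rw [key a, key b, hab]

/-! ### Polynomials over `𝔽₂` as bit masks -/

/-- The polynomial whose coefficients are the binary digits of `n`. -/
noncomputable def toPoly (n : ℕ) : (ZMod 2)[X] :=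
  ∑ i ∈ range (n + 1), if n.testBit i then X ^ i else 0

lemma testBit_false_of_lt {n i : ℕ} (h : n < i) : n.testBit i = false :=
  Nat.testBit_lt_two_pow (lt_trans h Nat.lt_two_pow_self)

lemma coeff_toPoly (n i : ℕ) : (toPoly n).coeff i = if n.testBit i then 1 else 0 := by
  unfold toPoly
  rw [finsetSum_coeff]
  have : ∀ j ∈ range (n + 1), ((if n.testBit j then X ^ j else 0 : (ZMod 2)[X])).coeff i
      = if j = i then (if n.testBit i then 1 else 0) else 0 := by
    intro j _
    by_cases hj : j = i
    · subst hj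
      rw [if_pos rfl]
      split_ifs <;> simp
    · rw [if_neg hj]
      split_ifs
      · rw [coeff_X_pow, if_neg (Ne.symm hj)]
      · simp
  rw [sum_congr rfl this, sum_ite_eq']
  split_ifs with h1 h2 h2
  · rfl
  · rfl
  · rw [mem_range, not_lt] at h1
    rw [testBit_false_of_lt (by omega)] at h2
    exact absurd h2 (by simp)
  · rfl

lemma toPoly_xor (a b : ℕ) : toPoly (a ^^^ b) = toPoly a + toPoly b := by
  ext i
  rw [coeff_add, coeff_toPoly, coeff_toPoly, coeff_toPoly, Nat.testBit_xor]
  cases a.testBit i <;> cases b.testBit i <;> decide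

lemma toPoly_shl (a k : ℕ) : toPoly (a <<< k) = X ^ k * toPoly a := by
  ext i
  rw [coeff_X_pow_mul', coeff_toPoly, coeff_toPoly, Nat.testBit_shiftLeft]
  by_cases h : k ≤ i
  · simp [h]
  · simp [h]

lemma toPoly_zero : toPoly 0 = 0 := by ext i; rw [coeff_toPoly]; simp

lemma toPoly_one : toPoly 1 = 1 := by
  ext i
  rw [coeff_toPoly, coeff_one]
  by_cases hi : i = 0
  · subst hi; simp
  · rw [if_neg hi, Nat.testBit_lt_two_pow (Nat.one_lt_two_pow hi)]
    simp

lemma toPoly_two_pow (k : ℕ) : toPoly (2 ^ k) = X ^ k := by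
  have : 2 ^ k = 1 <<< k := by rw [Nat.one_shiftLeft]
  rw [this, toPoly_shl, toPoly_one, mul_one]

/-- Carry-less product of `F` (first `k` bits) and `Q`. -/
def mulB (F Q : ℕ) : ℕ → ℕ
  | 0 => 0
  | k + 1 => mulB F Q k ^^^ (if F.testBit k then Q <<< k else 0)

lemma toPoly_trunc (F k : ℕ) (h : F < 2 ^ k) :
    ∑ i ∈ range k, (if F.testBit i then X ^ i else 0 : (ZMod 2)[X]) = toPoly F := by
  ext i
  rw [finsetSum_coeff, coeff_toPoly]
  have : ∀ j ∈ range k, ((if F.testBit j then X ^ j else 0 : (ZMod 2)[X])).coeff i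
      = if j = i then (if F.testBit i then 1 else 0) else 0 := by
    intro j _
    by_cases hj : j = i
    · subst hj
      rw [if_pos rfl]
      split_ifs <;> simp
    · rw [if_neg hj]
      split_ifs
      · rw [coeff_X_pow, if_neg (Ne.symm hj)]
      · simp
  rw [sum_congr rfl this, sum_ite_eq']
  split_ifs with h1 h2 h2
  · rfl
  · rfl
  · rw [mem_range, not_lt] at h1
    rw [Nat.testBit_lt_two_pow (lt_of_lt_of_le h (Nat.pow_le_pow_right (by norm_num) h1))] at h2
    exact absurd h2 (by simp)
  · rfl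

lemma toPoly_mulB_aux (F Q : ℕ) : ∀ k, toPoly (mulB F Q k)
    = (∑ i ∈ range k, (if F.testBit i then X ^ i else 0 : (ZMod 2)[X])) * toPoly Q
  | 0 => by simp [mulB, toPoly_zero]
  | k + 1 => by
    rw [mulB, toPoly_xor, toPoly_mulB_aux F Q k, sum_range_succ, add_mul]
    congr 1
    split_ifs
    · rw [toPoly_shl]
    · rw [toPoly_zero, zero_mul]

lemma toPoly_mulB (F Q k : ℕ) (h : F < 2 ^ k) : toPoly (mulB F Q k) = toPoly F * toPoly Q := by
  rw [toPoly_mulB_aux, toPoly_trunc F k h]

/-- Every polynomial is `toPoly n`. -/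
lemma exists_toPoly : ∀ (k : ℕ) (P : (ZMod 2)[X]), P.natDegree < k → ∃ n < 2 ^ k, toPoly n = P := by
  intro k
  induction k with
  | zero => intro P h; omega
  | succ k ih =>
    intro P hP
    have e := divX_mul_X_add P
    obtain ⟨n, hn, hnP⟩ : ∃ n < 2 ^ k, toPoly n = divX P := by
      by_cases hd : P.natDegree = 0
      · refine ⟨0, by positivity, ?_⟩
        rw [toPoly_zero]
        rw [eq_C_of_natDegree_eq_zero hd, divX_C]
      · apply ih
        rw [natDegree_divX_eq_natDegree_tsub_one]; omega
    have h01 : ∀ z : ZMod 2, z = 0 ∨ z = 1 := by decide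
    rcases h01 (P.coeff 0) with h0 | h0
    · refine ⟨n <<< 1, ?_, ?_⟩
      · rw [Nat.shiftLeft_eq]; rw [pow_succ]; omega
      · rw [toPoly_shl, hnP, pow_one, mul_comm]
        rw [h0, C_0, add_zero] at e
        exact e
    · refine ⟨n <<< 1 ^^^ 1, ?_, ?_⟩
      · apply Nat.xor_lt_two_pow
        · rw [Nat.shiftLeft_eq]; rw [pow_succ]; omega
        · exact Nat.one_lt_two_pow (by omega)
      · rw [toPoly_xor, toPoly_shl, hnP, pow_one, mul_comm, toPoly_one]
        rw [h0, C_1] at e
        exact e

/-- Reduction of `a` modulo `g` (of bit length `d + 1`). -/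
def red (g d : ℕ) (a : ℕ) : ℕ → ℕ
  | 0 => if a.testBit d then a ^^^ g else a
  | k + 1 => red g d (if a.testBit (k + 1 + d) then a ^^^ (g <<< (k + 1)) else a) k

lemma toPoly_red (g d : ℕ) : ∀ (k a : ℕ), toPoly g ∣ toPoly a + toPoly (red g d a k)
  | 0, a => by
    unfold red
    split_ifs
    · rw [toPoly_xor]
      refine ⟨1, ?_⟩
      rw [← add_assoc, CharTwo.add_self_eq_zero, zero_add, mul_one]
    · rw [CharTwo.add_self_eq_zero]; exact dvd_zero _
  | k + 1, a => by
    unfold red
    split_ifs with h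
    · have h1 := toPoly_red g d k (a ^^^ (g <<< (k + 1)))
      rw [toPoly_xor, toPoly_shl] at h1
      have h2 : toPoly a + toPoly (red g d (a ^^^ (g <<< (k + 1))) k)
          = (toPoly a + X ^ (k + 1) * toPoly g + toPoly (red g d (a ^^^ (g <<< (k + 1))) k))
            - X ^ (k + 1) * toPoly g := by ring
      rw [h2]
      exact dvd_sub h1 (Dvd.intro_left _ rfl)
    · exact toPoly_red g d k a

lemma natDegree_toPoly_lt (n k : ℕ) (hk : 0 < k) (h : n < 2 ^ k) : (toPoly n).natDegree < k := by
  by_contra hc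
  push Not at hc
  have h1 : (toPoly n).coeff (toPoly n).natDegree = 0 := by
    rw [coeff_toPoly, Nat.testBit_lt_two_pow
      (lt_of_lt_of_le h (Nat.pow_le_pow_right (by norm_num) hc))]
    simp
  rw [coeff_natDegree, leadingCoeff_eq_zero] at h1
  rw [h1, natDegree_zero] at hc
  omega

lemma natDegree_toPoly (n d : ℕ) (h1 : n.testBit d = true) (h2 : n < 2 ^ (d + 1)) :
    (toPoly n).natDegree = d := by
  apply le_antisymm
  · have := natDegree_toPoly_lt n (d + 1) (by omega) h2
    omega
  · apply le_natDegree_of_ne_zero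
    rw [coeff_toPoly, h1]; simp

lemma toPoly_ne_zero (n : ℕ) (h : n ≠ 0) : toPoly n ≠ 0 := by
  obtain ⟨i, hi⟩ := Nat.exists_testBit_of_ne_zero h
  intro h0
  have := congrArg (fun P => P.coeff i) h0
  simp only [coeff_toPoly, hi, coeff_zero] at this
  exact absurd this (by decide)

/-- Irreducibility by trial division by all polynomials of degree at most `6`. -/
theorem irreducible_of_check (F : ℕ) (hF : F < 2 ^ 13) (hF12 : F.testBit 12 = true)
    (hchk : ∀ n < 128, 2 ≤ n → red n (Nat.log2 n) F 12 ≠ 0 ∧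
      red n (Nat.log2 n) F 12 < 2 ^ (Nat.log2 n)) : Irreducible (toPoly F) := by
  have hdeg := natDegree_toPoly F 12 hF12 hF
  have hmonic : (toPoly F).Monic := by
    unfold Monic leadingCoeff
    rw [hdeg, coeff_toPoly, hF12]; simp
  rw [hmonic.irreducible_iff_natDegree']
  refine ⟨?_, ?_⟩
  · intro h
    rw [h, natDegree_one] at hdeg
    omega
  · intro f g hf hg hfg hmem
    rw [hdeg, Finset.mem_Ioc] at hmem
    obtain ⟨n, hn, hnP⟩ := exists_toPoly 7 g (by omega)
    have hn2 : 2 ≤ n := by
      by_contra hc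
      have : n = 0 ∨ n = 1 := by omega
      rcases this with rfl | rfl
      · rw [toPoly_zero] at hnP
        rw [← hnP, natDegree_zero] at hmem; omega
      · rw [toPoly_one] at hnP
        rw [← hnP, natDegree_one] at hmem; omega
    obtain ⟨hr0, hrlt⟩ := hchk n (by norm_num at hn; exact hn) hn2
    set d := Nat.log2 n with hd
    have hn0 : n ≠ 0 := by omega
    have hnd : (toPoly n).natDegree = d := by
      apply natDegree_toPoly
      · rw [hd]; exact Nat.testBit_log2 hn0
      · rw [hd]; exact Nat.lt_log2_self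
    have h1 : toPoly n ∣ toPoly F := by rw [hnP, ← hfg]; exact Dvd.intro_left _ rfl
    have h2 : toPoly n ∣ toPoly (red n d F 12) := (dvd_add_right h1).mp (toPoly_red n d 12 F)
    have hdpos : 0 < d := by rw [← hnd, hnP]; exact hmem.1
    have h3 := natDegree_le_of_dvd h2 (toPoly_ne_zero _ hr0)
    have h4 := natDegree_toPoly_lt _ d hdpos hrlt
    omega

/-- Positions of the window entries. -/
def pos (a b : ℕ) : ℕ := (351 * a + 235 * b) % 585

/-- All data needed for one polynomial. -/
structure Cert where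
  F : ℕ
  D : List ℕ
  Q : List ℕ
  Q585 : ℕ
  R : List (ℕ × ℕ)

/-- The check of the certificate. -/
def Cert.ok (c : Cert) : Prop :=
  c.F < 2 ^ 13 ∧ c.F.testBit 12 = true ∧
  (∀ n < 128, 2 ≤ n → red n (Nat.log2 n) c.F 12 ≠ 0 ∧
      red n (Nat.log2 n) c.F 12 < 2 ^ (Nat.log2 n)) ∧
  mulB c.F c.Q585 13 = 2 ^ 585 ^^^ 1 ∧
  (∀ j < 12, mulB c.F (c.Q.getD j 0) 13 = 2 ^ j ^^^ c.D.getD j 0 ∧ c.D.getD j 0 < 2 ^ 585 ∧
    ∀ i < 585, (c.D.getD j 0).testBit i = true → ∃ a < 3, ∃ b < 4, pos a b = i) ∧
  (∀ j < 3, mulB c.F (c.R.getD j (0, 0)).1 13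
      = (2 ^ ([195, 117, 45].getD j 0) ^^^ 1) ^^^ (c.R.getD j (0, 0)).2 ∧
    (c.R.getD j (0, 0)).2 < 2 ^ 12 ∧ (c.R.getD j (0, 0)).2 ≠ 0)

instance (c : Cert) : Decidable c.ok := by unfold Cert.ok; infer_instance

section cert

variable (c : Cert) (hc : c.ok)

include hc

lemma cert_natDegree : (toPoly c.F).natDegree = 12 := natDegree_toPoly _ _ hc.2.1 hc.1

lemma cert_irreducible : Irreducible (toPoly c.F) := irreducible_of_check c.F hc.1 hc.2.1 hc.2.2.1

lemma cert_coeff12 : (toPoly c.F).coeff 12 = 1 := by rw [coeff_toPoly, hc.2.1]; simp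

lemma cert_dvd585 : toPoly c.F ∣ X ^ 585 - 1 := by
  have h := hc.2.2.2.1
  have h1 := toPoly_mulB c.F c.Q585 13 hc.1
  rw [h, toPoly_xor, toPoly_two_pow, toPoly_one] at h1
  refine ⟨toPoly c.Q585, ?_⟩
  rw [← h1]
  rw [CharTwo.sub_eq_add]

lemma cert_not_dvd (t : ℕ) (j : ℕ) (hj : j < 3) (ht : [195, 117, 45].getD j 0 = t) :
    ¬ toPoly c.F ∣ X ^ t - 1 := by
  intro hd
  obtain ⟨h, hlt, hne⟩ := hc.2.2.2.2.2 j hj
  have h1 := toPoly_mulB c.F (c.R.getD j (0, 0)).1 13 hc.1
  rw [h, ht, toPoly_xor, toPoly_xor, toPoly_two_pow, toPoly_one, ← CharTwo.sub_eq_add (X ^ t)] at h1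
  have h2 : toPoly c.F ∣ toPoly (c.R.getD j (0, 0)).2 := by
    apply (dvd_add_right hd).mp
    rw [h1]; exact Dvd.intro _ rfl
  have h3 := natDegree_le_of_dvd h2 (toPoly_ne_zero _ hne)
  have h4 := natDegree_toPoly_lt _ 12 (by norm_num) hlt
  rw [cert_natDegree c hc] at h3
  omega

lemma cert_dvd_iff (e : ℕ) : toPoly c.F ∣ X ^ e - 1 ↔ 585 ∣ e := by
  have hx : ∀ e, toPoly c.F ∣ X ^ e - 1 ↔ (AdjoinRoot.root (toPoly c.F)) ^ e = 1 := by
    intro e
    rw [← AdjoinRoot.mk_eq_zero, map_sub, map_pow, AdjoinRoot.mk_X, map_one, sub_eq_zero]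
  have ho : orderOf (AdjoinRoot.root (toPoly c.F)) = 585 := by
    apply orderOf_eq_of_pow_and_pow_div_prime (by norm_num)
    · rw [← hx]; exact cert_dvd585 c hc
    · intro p hp hdvd
      have h585 : (585 : ℕ) = 3 * (3 * (5 * 13)) := by norm_num
      rw [h585] at hdvd
      have hp' : p = 3 ∨ p = 5 ∨ p = 13 := by
        rcases (Nat.Prime.dvd_mul hp).mp hdvd with h | h
        · left; exact (Nat.prime_dvd_prime_iff_eq hp (by norm_num)).mp h
        rcases (Nat.Prime.dvd_mul hp).mp h with h | h
        · left; exact (Nat.prime_dvd_prime_iff_eq hp (by norm_num)).mp h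
        rcases (Nat.Prime.dvd_mul hp).mp h with h | h
        · right; left; exact (Nat.prime_dvd_prime_iff_eq hp (by norm_num)).mp h
        · right; right; exact (Nat.prime_dvd_prime_iff_eq hp (by norm_num)).mp h
      rw [Ne, ← hx]
      rcases hp' with rfl | rfl | rfl
      · have e : 585 / 3 = 195 := by norm_num
        rw [e]; exact cert_not_dvd c hc 195 0 (by norm_num) rfl
      · have e : 585 / 5 = 117 := by norm_num
        rw [e]; exact cert_not_dvd c hc 117 1 (by norm_num) rfl
      · have e : 585 / 13 = 45 := by norm_num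
        rw [e]; exact cert_not_dvd c hc 45 2 (by norm_num) rfl
  rw [hx, ← ho]
  exact orderOf_dvd_iff_pow_eq_one.symm

lemma cert_exponent : IsExponent (toPoly c.F) 585 := by
  refine ⟨⟨by norm_num, cert_dvd585 c hc⟩, ?_⟩
  rintro e ⟨h1, h2⟩
  exact Nat.le_of_dvd (by omega) ((cert_dvd_iff c hc e).mp h2)

/-- Sequences vanishing at the window positions vanish. -/
lemma cert_inj (s : ℕ → ZMod 2) (hs : act (toPoly c.F) s = 0)
    (h0 : ∀ a < 3, ∀ b < 4, s (pos a b) = 0) : s = 0 := by
  have hj : ∀ j < 12, s j = 0 := by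
    intro j hj
    obtain ⟨h, hlt, hbits⟩ := hc.2.2.2.2.1 j hj
    have h1 := toPoly_mulB c.F (c.Q.getD j 0) 13 hc.1
    rw [h, toPoly_xor, toPoly_two_pow] at h1
    have h2 := congrArg (fun P => act P s 0) h1
    simp only [act_add, Pi.add_apply, act_X_pow, zero_add] at h2
    rw [mul_comm, act_mul, hs, act_zero] at h2
    have h3 : act (toPoly (c.D.getD j 0)) s 0 = 0 := by
      rw [act_apply]
      apply sum_eq_zero
      intro i _
      rw [coeff_toPoly]
      by_cases hb : (c.D.getD j 0).testBit i = true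
      · have hi : i < 585 := by
          by_contra hcc
          push Not at hcc
          rw [Nat.testBit_lt_two_pow (lt_of_lt_of_le hlt
            (Nat.pow_le_pow_right (by norm_num) hcc))] at hb
          exact absurd hb (by simp)
        obtain ⟨a, ha, b, hb', hab⟩ := hbits i hi hb
        rw [zero_add, ← hab, h0 a ha b hb', mul_zero]
      · rw [if_neg hb, zero_mul]
    rw [h3, add_zero] at h2
    exact h2
  funext n
  induction n using Nat.strong_induction_on with
  | _ n ih =>
    by_cases hn : n < 12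
    · exact hj n hn
    · have h1 := congrFun hs (n - 12)
      rw [act_apply, cert_natDegree c hc, sum_range_succ, cert_coeff12 c hc, one_mul] at h1
      have e : n - 12 + 12 = n := by omega
      rw [e] at h1
      have h2 : ∑ i ∈ range 12, (toPoly c.F).coeff i * s (n - 12 + i) = 0 := by
        apply sum_eq_zero
        intro i hi
        rw [mem_range] at hi
        rw [ih (n - 12 + i) (by omega)]
        simp
      rw [h2, zero_add] at h1
      exact h1

/-- Sequences with prescribed window values. -/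
lemma cert_surj (M : Fin 3 → Fin 4 → ZMod 2) :
    ∃ s, act (toPoly c.F) s = 0 ∧ ∀ (a : Fin 3) (b : Fin 4), s (pos a b) = M a b := by
  let E : LinearRecurrence (ZMod 2) := ⟨12, fun i => (toPoly c.F).coeff i⟩
  have hE : ∀ u : ℕ → ZMod 2, E.IsSolution u → act (toPoly c.F) u = 0 := by
    intro u hu
    funext n
    rw [act_apply, cert_natDegree c hc, sum_range_succ, cert_coeff12 c hc, one_mul]
    have h1 := hu n
    change u (n + 12) = ∑ i : Fin 12, (toPoly c.F).coeff i * u (n + i) at h1
    rw [Fin.sum_univ_eq_sum_range (fun i => (toPoly c.F).coeff i * u (n + i)) 12] at h1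
    rw [h1]
    exact CharTwo.add_self_eq_zero _
  let Φ : (Fin 12 → ZMod 2) → (Fin 3 → Fin 4 → ZMod 2) :=
    fun u a b => E.mkSol u (pos a b)
  have hinj : Function.Injective Φ := by
    intro u v huv
    have h1 : E.mkSol u + E.mkSol v = 0 := by
      apply cert_inj c hc
      · rw [act_add', hE _ (E.is_sol_mkSol u), hE _ (E.is_sol_mkSol v), add_zero]
      · intro a ha b hb
        have := congrFun (congrFun huv ⟨a, ha⟩) ⟨b, hb⟩
        change E.mkSol u (pos a b) = E.mkSol v (pos a b) at this
        rw [Pi.add_apply, this]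
        exact CharTwo.add_self_eq_zero _
    funext i
    have h2 := congrFun h1 i
    rw [Pi.add_apply] at h2
    have h3 := E.mkSol_eq_init u i
    have h4 := E.mkSol_eq_init v i
    rw [h3, h4] at h2
    exact CharTwo.add_eq_zero.mp h2
  have hsurj : Function.Surjective Φ := by
    have hbij := (Fintype.bijective_iff_injective_and_card Φ).mpr ⟨hinj, by
      simp only [Fintype.card_fun, Fintype.card_fin, ZMod.card]
      norm_num⟩
    exact hbij.2
  obtain ⟨u, hu⟩ := hsurj M
  refine ⟨E.mkSol u, hE _ (E.is_sol_mkSol u), ?_⟩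
  intro a b
  rw [← hu]

end cert

/-! ### Arrays of size `5 × 117` -/

/-- Reading the array along the diagonal. -/
def seqOf (A : Arr 5 117) : ℕ → ZMod 2 := fun n => A (n : ZMod 5) (n : ZMod 117)

lemma cast_crt (i : ZMod 5) (j : ZMod 117) :
    ((351 * i.val + 235 * j.val : ℕ) : ZMod 5) = i ∧
    ((351 * i.val + 235 * j.val : ℕ) : ZMod 117) = j := by
  have h1 : (351 : ZMod 5) = 1 := by reduce_mod_char
  have h2 : (235 : ZMod 5) = 0 := by reduce_mod_char
  have h3 : (351 : ZMod 117) = 0 := by reduce_mod_char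
  have h4 : (235 : ZMod 117) = 1 := by reduce_mod_char
  constructor
  · push_cast
    rw [ZMod.natCast_zmod_val, h1, h2]; ring
  · push_cast
    rw [ZMod.natCast_zmod_val j, h3, h4]; ring

lemma seqOf_period (A : Arr 5 117) (n : ℕ) : seqOf A (n + 585) = seqOf A n := by
  unfold seqOf
  have h1 : ((n + 585 : ℕ) : ZMod 5) = n := by
    push_cast
    have : (585 : ZMod 5) = 0 := by reduce_mod_char
    rw [this, add_zero]
  have h2 : ((n + 585 : ℕ) : ZMod 117) = n := by
    push_cast
    have : (585 : ZMod 117) = 0 := by reduce_mod_char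
    rw [this, add_zero]
  rw [h1, h2]

lemma arr_eq (A : Arr 5 117) (i : ZMod 5) (j : ZMod 117) :
    A i j = seqOf A (351 * i.val + 235 * j.val) := by
  unfold seqOf
  rw [(cast_crt i j).1, (cast_crt i j).2]

lemma seqOf_inj {A B : Arr 5 117} (h : seqOf A = seqOf B) : A = B := by
  funext i j
  rw [arr_eq A i j, arr_eq B i j, h]

/-- The array of a sequence. -/
def ofSeq (s : ℕ → ZMod 2) : Arr 5 117 := fun i j => s (351 * i.val + 235 * j.val)

lemma seqOf_ofSeq (s : ℕ → ZMod 2) (hs : ∀ n, s (n + 585) = s n) : seqOf (ofSeq s) = s := by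
  funext n
  unfold seqOf ofSeq
  apply periodic_mod hs
  rw [ZMod.val_natCast, ZMod.val_natCast]
  omega

lemma seqOf_shift (A : Arr 5 117) (i : ZMod 5) (j : ZMod 117) :
    seqOf (shift A i j) = fun n => seqOf A (n + (351 * i.val + 235 * j.val)) := by
  funext n
  unfold seqOf shift
  rw [Nat.cast_add, Nat.cast_add (R := ZMod 117), (cast_crt i j).1, (cast_crt i j).2,
    add_comm i, add_comm j]

lemma window_pos (A : Arr 5 117) (n₁ n₂ : ℕ) (a : Fin n₁) (b : Fin n₂) (ha : (a : ℕ) < 5)
    (hb : (b : ℕ) < 117) : window n₁ n₂ A 0 0 a b = seqOf A (pos a b) := by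
  unfold window
  rw [zero_add, zero_add, arr_eq A]
  apply periodic_mod (seqOf_period A)
  unfold pos
  rw [ZMod.val_natCast, ZMod.val_natCast, Nat.mod_eq_of_lt ha, Nat.mod_eq_of_lt hb, Nat.mod_mod]

/-- Arrays whose sequence is generated by `f`. -/
def Vf (f : (ZMod 2)[X]) : Set (Arr 5 117) := {A | act f (seqOf A) = 0}

lemma Vf_add (f : (ZMod 2)[X]) : ∀ A ∈ Vf f, ∀ B ∈ Vf f, A + B ∈ Vf f := by
  intro A hA B hB
  change act f (seqOf (A + B)) = 0
  have : seqOf (A + B) = seqOf A + seqOf B := rfl
  rw [this, act_add', hA, hB, add_zero]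

lemma Vf_shift (f : (ZMod 2)[X]) : ∀ A ∈ Vf f, ∀ i j, shift A i j ∈ Vf f := by
  intro A hA i j
  change act f (seqOf (shift A i j)) = 0
  rw [seqOf_shift, act_shift, hA]
  rfl

lemma Foldings_eq (f : (ZMod 2)[X]) : Foldings f 5 117 = {A | A ∈ Vf f ∧ A ≠ 0} := by
  ext A
  constructor
  · rintro ⟨s, hs, h0, hA⟩
    have e : seqOf A = s := funext hA
    refine ⟨?_, ?_⟩
    · change act f (seqOf A) = 0
      rw [e]; exact (gen_iff f s).mp hs
    · rintro rfl
      exact h0 e.symm
  · rintro ⟨hA, h0⟩
    refine ⟨seqOf A, (gen_iff f _).mpr hA, ?_, fun _ => rfl⟩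
    intro h
    exact h0 (seqOf_inj (h.trans rfl))

lemma Foldings_shift (f : (ZMod 2)[X]) :
    ∀ A ∈ Foldings f 5 117, ∀ i j, shift A i j ∈ Foldings f 5 117 := by
  rw [Foldings_eq]
  rintro A ⟨hA, h0⟩ i j
  refine ⟨Vf_shift f A hA i j, ?_⟩
  intro h
  apply h0
  have := congrArg (fun B => shift B (-i) (-j)) h
  simp only [shift_shift, add_neg_cancel, shift_zero] at this
  rw [this]; rfl

lemma exists_reps' (f : (ZMod 2)[X]) : ∃ C, IsReps (Foldings f 5 117) C :=
  exists_reps _ (Foldings_shift f)

/-- The exact period of the nonzero sequences generated by `f`. -/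
lemma cert_per (c : Cert) (hc : c.ok) (A : Arr 5 117) (hA : A ∈ Vf (toPoly c.F)) (h0 : A ≠ 0)
    (i : ZMod 5) (j : ZMod 117) (h : shift A i j = A) : (i, j) = (0, 0) := by
  set t := 351 * i.val + 235 * j.val with ht
  have h1 : ∀ n, seqOf A (n + t) = seqOf A n := by
    intro n
    have := congrFun (congrArg seqOf h) n
    rw [seqOf_shift] at this
    exact this
  have hX : act (X ^ t - 1) (seqOf A) = 0 := by
    funext n
    rw [act_sub, act_one, Pi.sub_apply, act_X_pow, h1, sub_self]; rfl
  have hdvd : toPoly c.F ∣ X ^ t - 1 := by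
    rcases (cert_irreducible c hc).isCoprime_or_dvd (X ^ t - 1) with hco | hd
    · exfalso
      obtain ⟨u, v, huv⟩ := hco
      apply h0
      apply seqOf_inj
      have : seqOf A = 0 := by
        rw [← act_one (seqOf A), ← huv, act_add, act_mul, act_mul, hX, act_zero]
        have : act (toPoly c.F) (seqOf A) = 0 := hA
        rw [this, act_zero, add_zero]
      rw [this]; rfl
    · exact hd
  have h585 := (cert_dvd_iff c hc t).mp hdvd
  obtain ⟨q, hq⟩ := h585
  have hi := (cast_crt i j).1
  have hj := (cast_crt i j).2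
  rw [← ht, hq] at hi hj
  have e1 : ((585 * q : ℕ) : ZMod 5) = 0 := by
    push_cast
    have : (585 : ZMod 5) = 0 := by reduce_mod_char
    rw [this, zero_mul]
  have e2 : ((585 * q : ℕ) : ZMod 117) = 0 := by
    push_cast
    have : (585 : ZMod 117) = 0 := by reduce_mod_char
    rw [this, zero_mul]
  rw [← hi, ← hj, e1, e2]

theorem cert_prac (c : Cert) (hc : c.ok) (C : Set (Arr 5 117))
    (hC : IsReps (Foldings (toPoly c.F) 5 117) C) : IsPRAC 5 117 3 4 C := by
  rw [Foldings_eq] at hC
  apply prac_of 3 4 (Vf (toPoly c.F)) (by norm_num) (Vf_add _) (Vf_shift _) _ _ _ C hC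
  · intro A hA hw
    apply seqOf_inj
    have : seqOf A = 0 := by
      apply cert_inj c hc _ hA
      intro a ha b hb
      have := congrFun (congrFun hw ⟨a, ha⟩) ⟨b, hb⟩
      rw [window_pos A 3 4 ⟨a, ha⟩ ⟨b, hb⟩ (by simp; omega) (by simp; omega)] at this
      exact this
    rw [this]; rfl
  · intro M
    obtain ⟨s, hs, hM⟩ := cert_surj c hc M
    have hper := periodic_of_dvd (cert_dvd585 c hc) hs
    have e := seqOf_ofSeq s hper
    refine ⟨ofSeq s, ?_, ?_⟩
    · change act (toPoly c.F) (seqOf (ofSeq s)) = 0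
      rw [e]; exact hs
    · funext a b
      rw [window_pos _ 3 4 a b (by omega) (by omega), e, hM]
  · intro A hA h0 i j h
    exact cert_per c hc A hA h0 i j h

/-! ### The data -/

/-- Certificate for `f`. -/
def cert_f : Cert where
  F := 6179
  D := [1,
    2,
    4,
    9173994463960286046443283581208348094470084602620186291818636746844914551235165681374501764048725768929281,
    3048582568667961163458591044719888970457615373696260889510895468384152088691177363398736428772941378085769816651244440087208817556365246464007,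
    3048582568667961163458591044719888979631609837656546935954179049592500238375232740343433020069625023146885329039290328993057215291164245098500,
    9173994463960286046443283581208348039256113828295675992340589848628710931626293904011409322748531978534919,
    3048582568667961163458591044719888979631609837656546935954179049592499851877437320071860923723296735633459991777187887451410126189807712337922,
    4586997231980143023221641790604174047235042301310093145909318373422456777157084421343798543096715279335427,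
    13760991695940429069664925371812521755207331483658707341381626832753945824976648188062169105068201980461058,
    3048582568667961163458591044719888984218607069636689959175820840196674064754391944355484968066755803704528956988883425800358896994164643201024,
    9145747706003883490375773134159666925133837817029211738197611776964978131708805122503937226656544763443657197236141923386488825109444179263489]
  Q := [0,
    0,
    0,
    4456959545273116940260209553966897702525351743333434572144543168237474810490427786763311949838759357351,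
    1481078850914458812469404172355823810811127314419258005517703298317017048529571249564008805480615515844659119807582589065482221101990196077,
    1481078850914458812469404172355823812654270710800953981692967621490119169859970880812274610719567982042711539677845864683248495595606224540,
    4456959545273116940260209553966897729305272045929926741785104283456247010491587724843112558976217182557,
    1481078850914458812469404172355823812654270710800953981692967621490119120046800471469895352456984842856010158024494724837868039589105331518,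
    2228479772636558470130104776983448851262675871666717286072271584118737160642320570414524989776653876449,
    2273463810355056498607752872028825135176468537514052314051179008914284065187768355984556522096214113470,
    1481078850914458812469404172355823813062684439614809702343223027263312453398555556042431048992779283897256079162740917282463840663297686528,
    1510975872063894909488079042923546215389304890221602068415868526419864953924404872172994131378112938021010407235708305626637014654522759519]
  Q585 := 61521608518764134466052408292220647286065266174883529667541603247632475938276938348398096939715060532667190655198976184640631222604779257354707746585335670597410452823531871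
  R := [(24396603774800991303125714789413186090583195688152675690, 767),
    (80721590618613564898653723568218, 943),
    (17093461702, 907)]

theorem cert_f_ok : cert_f.ok := by decide +kernel

/-- Certificate for `g`. -/
def cert_g : Cert where
  F := 5227
  D := [1,
    2,
    4,
    4586997231980143023221641790604173936807100752661072546953224576990049371785841393503129547520445163503621,
    13760991695940429069664925371812521810421302257983217640859673730970148115357524180509388642561335490510855,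
    6097165137335922326917182089439777954676222443332950848686716308580825932589686210456180198927509588925482965976644971519325045542694447742980,
    3048582568667961163458591044719888984218607069636689959175820840196673899112479621381954069632615109055916768934272308795208669286522991673350,
    9145747706003883490375773134159666920546840585049068714975969986360804139687733595518354380225273288237405535069424537436139740095865505710087,
    165641912322973530898434140694648610858826615332089277323900581371183105,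
    331283824645947061796868281389297221717653230664178554647801162742366210,
    3048582568667961163458591044719888970457615373696260889510895468384152143905148137723246728250988276301972107032120432534428355049498756513798,
    6097165137335922326917182089439777945502227979372664802243432727372478224617397028107566003455201129593993585850082258571986257619442676531201]
  Q := [0,
    0,
    0,
    1485583041143588950842969883561249001796694202583999934297286447570388934747089613196126589839393424915,
    4429913583526846202433197981467197125681192012134283684640938572366622694416668197210904628446025484853,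
    1974678568351352957743466857950298638922741105258176236826470405292474449599922349852998220051314408792759918599911866185482709817421684540,
    987339284175676478871733428975149321661409694339003289132920955827863336591519360852422652923879412877424283998513179929773593457492763890,
    2944182577065882146818025184979898604529129782325442652291624251151450444188706973507278015773439555605607266476747198152765196924902274757,
    53323145134763247466437900862636984146758793290338280253480067531639,
    106646290269526494932875801725273968293517586580676560506960135063278,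
    987339284175676478871733428975149319646519953362153242561765387833462580548503030542630263836039206632593143822996316392186238802323105074,
    1974678568351352957743466857950298640755876788521062867616163484483458112950535884428259085910315026178110366436254249268689384781900794999]
  Q585 := 41012469308267123433447037765772710950172633138245030957298865723307605694182870784326093690687583443449018323365542845547414260442150230390858156646934900966567148524827767
  R := [(16263634642042990096108220459905924606098803666652432296, 2745),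
    (53811853062175046116223466523352, 1193),
    (11395103124, 413)]

theorem cert_g_ok : cert_g.ok := by decide +kernel

/-- The bits of a nonzero sequence generated by `f * g` with zero `3 × 8` window. -/
def K : ℕ := 38639578705419458770239636343287916931307178883175660035425853009632401686606741845357807081049230703992784932769944256759986729718973015306174904752497156557234786350985331200

/-- The sequence with zero window. -/
def bit (n : ℕ) : ℕ := if K.testBit (n % 585) then 1 else 0

/-- The sequence with zero window, in `𝔽₂`. -/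
def s₀ (n : ℕ) : ZMod 2 := (bit n : ZMod 2)

theorem K_rec : ∀ n < 585, (([0, 1, 5, 11, 12].map fun i =>
    ([0, 1, 3, 5, 6, 10, 12].map fun j => bit (n + i + j)).sum).sum) % 2 = 0 := by
  decide +kernel

theorem K_window : ∀ a < 3, ∀ b < 8, bit (pos a b) = 0 := by decide +kernel

theorem K_ne : ∃ n < 585, bit n = 1 := by decide +kernel

/-- The first polynomial. -/
noncomputable def f : (ZMod 2)[X] := X ^ 12 + X ^ 11 + X ^ 5 + X + 1

/-- The second polynomial. -/
noncomputable def g : (ZMod 2)[X] := X ^ 12 + X ^ 10 + X ^ 6 + X ^ 5 + X ^ 3 + X + 1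

lemma f_eq : f = toPoly cert_f.F := by
  have : cert_f.F = 2 ^ 12 ^^^ 2 ^ 11 ^^^ 2 ^ 5 ^^^ 2 ^ 1 ^^^ 1 := by decide
  rw [this, toPoly_xor, toPoly_xor, toPoly_xor, toPoly_xor, toPoly_two_pow, toPoly_two_pow,
    toPoly_two_pow, toPoly_two_pow, toPoly_one, pow_one]
  rfl

lemma g_eq : g = toPoly cert_g.F := by
  have : cert_g.F = 2 ^ 12 ^^^ 2 ^ 10 ^^^ 2 ^ 6 ^^^ 2 ^ 5 ^^^ 2 ^ 3 ^^^ 2 ^ 1 ^^^ 1 := by decide
  rw [this, toPoly_xor, toPoly_xor, toPoly_xor, toPoly_xor, toPoly_xor, toPoly_xor,
    toPoly_two_pow, toPoly_two_pow, toPoly_two_pow, toPoly_two_pow, toPoly_two_pow,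
    toPoly_two_pow, toPoly_one, pow_one]
  rfl

lemma f_ne_g : f ≠ g := by
  intro h
  have := congrArg (fun P => P.coeff 11) h
  rw [f_eq, g_eq] at this
  simp only [coeff_toPoly] at this
  revert this
  decide

lemma act_X (s : ℕ → ZMod 2) (n : ℕ) : act X s n = s (n + 1) := by
  rw [← pow_one X, act_X_pow]

lemma act_f (s : ℕ → ZMod 2) (n : ℕ) :
    act f s n = s (n + 12) + s (n + 11) + s (n + 5) + s (n + 1) + s n := by
  unfold f
  simp only [act_add, Pi.add_apply, act_X_pow, act_X, act_one]

lemma act_g (s : ℕ → ZMod 2) (n : ℕ) : act g s n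
    = s (n + 12) + s (n + 10) + s (n + 6) + s (n + 5) + s (n + 3) + s (n + 1) + s n := by
  unfold g
  simp only [act_add, Pi.add_apply, act_X_pow, act_X, act_one]

lemma bit_period (n : ℕ) : bit (n + 585) = bit n := by
  unfold bit; rw [Nat.add_mod_right]

lemma bit_mod (n a b : ℕ) : bit (n % 585 + a + b) = bit (n + a + b) := by
  unfold bit; rw [add_assoc, add_assoc, Nat.mod_add_mod]

lemma s₀_gen : act (f * g) s₀ = 0 := by
  rw [act_mul]
  funext n
  have h := K_rec (n % 585) (Nat.mod_lt _ (by norm_num))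
  simp only [List.map_cons, List.map_nil, List.sum_cons, List.sum_nil, bit_mod] at h
  have h2 := (ZMod.natCast_eq_zero_iff _ 2).mpr (Nat.dvd_of_mod_eq_zero h)
  push_cast at h2
  simp only [act_f, act_g, Pi.zero_apply]
  unfold s₀
  rw [← h2]
  simp only [add_zero]
  ring

lemma s₀_period (n : ℕ) : s₀ (n + 585) = s₀ n := by unfold s₀; rw [bit_period]

/-- The array with zero window. -/
def A₀ : Arr 5 117 := ofSeq s₀

lemma seqOf_A₀ : seqOf A₀ = s₀ := seqOf_ofSeq s₀ s₀_period

lemma A₀_mem : A₀ ∈ Vf (f * g) := by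
  change act (f * g) (seqOf A₀) = 0
  rw [seqOf_A₀, s₀_gen]

lemma A₀_ne : A₀ ≠ 0 := by
  intro h
  obtain ⟨n, -, hn⟩ := K_ne
  have h1 := congrFun (congrArg seqOf h) n
  rw [seqOf_A₀] at h1
  unfold s₀ at h1
  rw [hn] at h1
  change ((1 : ℕ) : ZMod 2) = 0 at h1
  exact absurd h1 (by decide)

lemma A₀_window : window 3 8 A₀ 0 0 = 0 := by
  funext a b
  rw [window_pos A₀ 3 8 a b (by omega) (by omega), seqOf_A₀]
  unfold s₀
  rw [K_window a a.2 b b.2]
  rfl

theorem product_not_prac (C : Set (Arr 5 117)) (hC : IsReps (Foldings (f * g) 5 117) C) :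
    ¬ IsPRAC 5 117 3 8 C := by
  rw [Foldings_eq] at hC
  exact not_prac_of 3 8 (Vf (f * g)) (Vf_add _) (Vf_shift _) A₀ A₀_mem A₀_ne A₀_window
    (fun _ _ => 1) (fun h => absurd (congrFun (congrFun h 0) 0) (by decide)) C hC

end Pool.Agent.Q35.Prac

namespace Pool.Agent.Results.MP_2c8f22_co.FoldedProducts

open Polynomial Finset Pool.Agent.Q35.Prac

/-- The folding conjecture is false. First part: an explicit counterexample with
`(r₁, r₂; n₁, n₂) = (5, 117; 3, 4)` and two irreducible polynomials, whichever representatives of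
the shift classes are taken. Second part: the negation of the conjecture as stated. -/
theorem result :
    (∃ f g : (ZMod 2)[X], f ≠ g ∧
      (Irreducible f ∧ f.natDegree = 3 * 4 ∧ IsExponent f (5 * 117)) ∧
      (Irreducible g ∧ g.natDegree = 3 * 4 ∧ IsExponent g (5 * 117)) ∧
      ((∃ C, IsReps (Foldings f 5 117) C) ∧
        ∀ C, IsReps (Foldings f 5 117) C → IsPRAC 5 117 3 4 C) ∧
      ((∃ C, IsReps (Foldings g 5 117) C) ∧
        ∀ C, IsReps (Foldings g 5 117) C → IsPRAC 5 117 3 4 C) ∧
      ((∃ C, IsReps (Foldings (f * g) 5 117) C) ∧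
        ∀ C, IsReps (Foldings (f * g) 5 117) C → ¬ IsPRAC 5 117 3 (2 * 4) C)) ∧
    ¬ ∀ (n₁ n₂ r₁ r₂ ℓ : ℕ) (f : Fin ℓ → (ZMod 2)[X]), 0 < n₂ → n₁ < r₁ → r₁ < 2 * n₁ →
      Nat.Coprime r₁ r₂ → Function.Injective f →
      (∀ i, Irreducible (f i) ∧ (f i).natDegree = n₁ * n₂ ∧ IsExponent (f i) (r₁ * r₂)) →
      (∀ i, FoldsToPRAC (f i) r₁ r₂ n₁ n₂) →
      ∀ S : Finset (Fin ℓ), S.Nonempty →
        FoldsToPRAC (∏ i ∈ S, f i) r₁ r₂ n₁ (S.card * n₂) := by
  have hf1 : Irreducible f ∧ f.natDegree = 3 * 4 ∧ IsExponent f (5 * 117) := by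
    rw [f_eq]
    exact ⟨cert_irreducible _ cert_f_ok, cert_natDegree _ cert_f_ok, cert_exponent _ cert_f_ok⟩
  have hg1 : Irreducible g ∧ g.natDegree = 3 * 4 ∧ IsExponent g (5 * 117) := by
    rw [g_eq]
    exact ⟨cert_irreducible _ cert_g_ok, cert_natDegree _ cert_g_ok, cert_exponent _ cert_g_ok⟩
  have hf2 : ∀ C, IsReps (Foldings f 5 117) C → IsPRAC 5 117 3 4 C := by
    rw [f_eq]; exact cert_prac _ cert_f_ok
  have hg2 : ∀ C, IsReps (Foldings g 5 117) C → IsPRAC 5 117 3 4 C := by
    rw [g_eq]; exact cert_prac _ cert_g_ok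
  refine ⟨⟨f, g, f_ne_g, hf1, hg1, ⟨exists_reps' f, hf2⟩, ⟨exists_reps' g, hg2⟩,
    ⟨exists_reps' (f * g), product_not_prac⟩⟩, ?_⟩
  intro hall
  have h := hall 3 4 5 117 2 ![f, g] (by norm_num) (by norm_num) (by norm_num) (by norm_num)
    (by
      intro i j hij
      fin_cases i <;> fin_cases j
      · rfl
      · exact absurd hij f_ne_g
      · exact absurd hij.symm f_ne_g
      · rfl)
    (by
      intro i
      fin_cases i
      · exact hf1
      · exact hg1)
    (by
      intro i
      fin_cases i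
      · obtain ⟨C, hC⟩ := exists_reps' f
        exact ⟨C, hC, hf2 C hC⟩
      · obtain ⟨C, hC⟩ := exists_reps' g
        exact ⟨C, hC, hg2 C hC⟩)
    Finset.univ Finset.univ_nonempty
  have e : ∏ i ∈ (Finset.univ : Finset (Fin 2)), (![f, g] : Fin 2 → (ZMod 2)[X]) i = f * g := by
    rw [Fin.prod_univ_two]; rfl
  rw [e] at h
  obtain ⟨C, hC, hP⟩ := h
  exact product_not_prac C hC hP

end Pool.Agent.Results.MP_2c8f22_co.FoldedProducts
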